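import Pool.Agent.K3h37.KGames

/-! # Which compact spaces keep the winning strategies of II in the `k`-Rothberger game -/

namespace Pool.Agent.Results.MP_e0f6ac_lc.CompactCharacterization

open Pool.Agent.Helper669.Forcing
open Pool.Agent.V11244.CohGame
open Pool.Agent.V11244.CohCore (Coh)
open Pool.Agent.K3h37.KGames

universe u v

/-- Cohen forcing `Coh` is strongly proper. II wins the `k`-Rothberger and the `k`-Menger game on
each compact Hausdorff space `X`. If `X` is scattered, then every forcing forces that `X` is still
compact and that II still wins both games on `X`; if `X` is not scattered, then Cohen forcing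
forces that II wins neither of them. The Cantor space is not scattered. -/
theorem result :
    StronglyProper Coh ∧ ¬ Scattered (ℕ → Bool) ∧
    ∀ (X : Type v) [TopologicalSpace X] [CompactSpace X] [T2Space X],
      IIWinsOne (KCovers X) (KCovers X) ∧ IIWinsFin (KCovers X) (KCovers X) ∧
      (Scattered X → ∀ (P : Type u) [Preorder P] (p : P),
        p ∈ fCompact (fun _ : X => (Set.univ : Set P)) ∧
        p ∈ fIIWinsOne (P := P) (X := X) fKCover fKCover ∧
        p ∈ fIIWinsFin (P := P) (X := X) fKCover fKCover) ∧
      (¬ Scattered X → ∀ p : Coh,
        p ∈ fnot (fIIWinsOne (P := Coh) (X := X) fKCover fKCover) ∧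
        p ∈ fnot (fIIWinsFin (P := Coh) (X := X) fKCover fKCover)) :=
  ⟨stronglyProper_of_countable, not_scattered_cantor, fun _ _ _ _ =>
    ⟨winsOne_of_compact, winsFin_of_winsOne winsOne_of_compact,
      fun h _ _ p => ⟨compact_of_scattered h p, winsOne_of_scattered h p,
        winsFin_of_scattered h p⟩,
      fun h p => destroys_of_not_scattered h p⟩⟩

end Pool.Agent.Results.MP_e0f6ac_lc.CompactCharacterization
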